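import Pool.Agent.Helper89.Vol.Goals2

/-! # MP_cd13d2_co : the exact value of `V(3,6)`, packet V36-PA0E (equality in adapted coordinates) -/

set_option autoImplicit false

namespace Pool.Agent.Helper95.Vol.PkPA0E

open Set Pool.Agent.Helper86.Poly Pool.Agent.Helper89.Vol

/-- the planar bound for a point near both ends of the segment -/
theorem planar {p0 p1 p2 z l : ℝ} (h1 : p0 ^ 2 + p1 ^ 2 + (p2 - z) ^ 2 ≤ 1)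
    (h2 : p0 ^ 2 + p1 ^ 2 + (p2 - z - l) ^ 2 ≤ 1) : p0 ^ 2 + p1 ^ 2 ≤ 1 - l ^ 2 / 4 := by
  nlinarith [sq_nonneg (2 * (p2 - z) - l)]

theorem abs_bound (l m0 n b1 g0 g1 s1 : ℝ) (hl : 0 ≤ l) (hn : 0 ≤ n) :
    |l * m0 * g1 - l * b1 * g0 + l * n * s1| ≤
      l * |m0| * |g1| + l * |b1| * |g0| + l * n * |s1| := by
  have h1 : |l * m0 * g1| = l * |m0| * |g1| := by rw [abs_mul, abs_mul, abs_of_nonneg hl]
  have h2 : |l * b1 * g0| = l * |b1| * |g0| := by rw [abs_mul, abs_mul, abs_of_nonneg hl]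
  have h3 : |l * n * s1| = l * n * |s1| := by rw [abs_mul, abs_of_nonneg (mul_nonneg hl hn)]
  have h4 := abs_add_le (l * m0 * g1 - l * b1 * g0) (l * n * s1)
  have h5 := abs_sub (l * m0 * g1) (l * b1 * g0)
  linarith

theorem pair1 {a0 a1 m n b1 d0 d1 : ℝ} (h1 : (a0 - (m + n)) ^ 2 + (a1 - b1) ^ 2 ≤ 1)
    (h2 : (m - n - d0) ^ 2 + (b1 - d1) ^ 2 ≤ 1) :
    (a0 + d0 - 2 * m) ^ 2 + (a1 + d1 - 2 * b1) ^ 2 + ((d0 - a0) + 2 * n) ^ 2 +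
      (d1 - a1) ^ 2 ≤ 4 := by
  have e : (a0 + d0 - 2 * m) ^ 2 + (a1 + d1 - 2 * b1) ^ 2 + ((d0 - a0) + 2 * n) ^ 2 +
      (d1 - a1) ^ 2 = 2 * ((a0 - (m + n)) ^ 2 + (a1 - b1) ^ 2) +
        2 * ((m - n - d0) ^ 2 + (b1 - d1) ^ 2) := by ring
  linarith

theorem pair2 {a0 a1 m n b1 d0 d1 : ℝ} (h1 : (a0 - (m - n)) ^ 2 + (a1 - b1) ^ 2 ≤ 1)
    (h2 : (m + n - d0) ^ 2 + (b1 - d1) ^ 2 ≤ 1) :
    (a0 + d0 - 2 * m) ^ 2 + (a1 + d1 - 2 * b1) ^ 2 + ((d0 - a0) - 2 * n) ^ 2 +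
      (d1 - a1) ^ 2 ≤ 4 := by
  have e : (a0 + d0 - 2 * m) ^ 2 + (a1 + d1 - 2 * b1) ^ 2 + ((d0 - a0) - 2 * n) ^ 2 +
      (d1 - a1) ^ 2 = 2 * ((a0 - (m - n)) ^ 2 + (a1 - b1) ^ 2) +
        2 * ((m + n - d0) ^ 2 + (b1 - d1) ^ 2) := by ring
  linarith

theorem pair3 {a0 a1 m n b1 d0 d1 : ℝ} (h1 : (a0 - (m + n)) ^ 2 + (a1 - b1) ^ 2 ≤ 1)
    (h2 : (m - n - d0) ^ 2 + (b1 - d1) ^ 2 ≤ 1) (h3 : (a0 - (m - n)) ^ 2 + (a1 - b1) ^ 2 ≤ 1)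
    (h4 : (m + n - d0) ^ 2 + (b1 - d1) ^ 2 ≤ 1) :
    (a0 + d0 - 2 * m) ^ 2 + (a1 + d1 - 2 * b1) ^ 2 + (|d0 - a0| + 2 * n) ^ 2 +
      (d1 - a1) ^ 2 ≤ 4 := by
  rcases abs_cases (d0 - a0) with ⟨e, _⟩ | ⟨e, _⟩
  · rw [e]
    exact pair1 h1 h2
  · rw [e]
    have e2 : (-(d0 - a0) + 2 * n) ^ 2 = ((d0 - a0) - 2 * n) ^ 2 := by ring
    rw [e2]
    exact pair2 h3 h4

/-- the outer bound in the plane -/
theorem outer {m n b1 l : ℝ} (hB : (m - n) ^ 2 + b1 ^ 2 ≤ 1 - l ^ 2 / 4)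
    (hC : (m + n) ^ 2 + b1 ^ 2 ≤ 1 - l ^ 2 / 4) : (|m| + n) ^ 2 + b1 ^ 2 ≤ 1 - l ^ 2 / 4 := by
  rcases abs_cases m with ⟨e, _⟩ | ⟨e, _⟩
  · rw [e]
    exact hC
  · rw [e]
    have e2 : (-m + n) ^ 2 = (m - n) ^ 2 := by ring
    rw [e2]
    exact hB

theorem lbound {l : ℝ} (h0 : 0 ≤ l) (h1 : l ≤ 1) : l ^ 2 * (1 - l ^ 2 / 4) ≤ 3 / 4 := by
  have h2 : l ^ 2 ≤ 1 := pow_le_one₀ h0 h1
  nlinarith [mul_nonneg (sub_nonneg.2 h2) (by linarith : (0 : ℝ) ≤ 3 - l ^ 2)]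

theorem outer2 {m n b1 l : ℝ} (h0 : 0 ≤ l) (h1 : l ≤ 1)
    (h : (|m| + n) ^ 2 + b1 ^ 2 ≤ 1 - l ^ 2 / 4) :
    (l * |m| + l * n) ^ 2 + (l * |b1|) ^ 2 ≤ 3 / 4 := by
  have e1 : (l * |m| + l * n) ^ 2 + (l * |b1|) ^ 2 = l ^ 2 * ((|m| + n) ^ 2 + |b1| ^ 2) := by
    ring
  rw [e1, sq_abs b1]
  exact (mul_le_mul_of_nonneg_left h (sq_nonneg l)).trans (lbound h0 h1)

theorem third {s0 s1 g0 g1 n l : ℝ} (h0 : 0 ≤ l) (h1 : l ≤ 1) (hn : 0 ≤ n)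
    (h : s0 ^ 2 + s1 ^ 2 + (|g0| + 2 * n) ^ 2 + g1 ^ 2 ≤ 4) :
    |s1| ^ 2 + |g0| ^ 2 + |g1| ^ 2 + 4 * (l * n) ^ 2 + 4 * (l * n) * |g0| ≤ 4 := by
  rw [sq_abs s1, sq_abs g1]
  have hln : l * n ≤ n := mul_le_of_le_one_left hn h1
  have hln0 : 0 ≤ l * n := mul_nonneg h0 hn
  have q1 : (l * n) ^ 2 ≤ n ^ 2 := pow_le_pow_left₀ hln0 hln 2
  have q2 : l * n * |g0| ≤ n * |g0| := mul_le_mul_of_nonneg_right hln (abs_nonneg _)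
  have q3 := sq_nonneg s0
  have e : (|g0| + 2 * n) ^ 2 = |g0| ^ 2 + 4 * (n * |g0|) + 4 * n ^ 2 := by ring
  rw [e] at h
  linarith

theorem value {a0 a1 b1 d0 d1 m n l : ℝ} :
    l * ((a0 * b1 - a1 * (m - n)) + ((m - n) * b1 - b1 * (m + n)) + ((m + n) * d1 - b1 * d0)) =
      l * m * (d1 - a1) - l * b1 * (d0 - a0) + l * n * (a1 + d1 - 2 * b1) := by
  ring

/-- the segment is a unit segment -/
theorem l_one {n b1 l N : ℝ} (h0 : 0 ≤ l) (h1 : l ≤ 1) (hn : l * n = N)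
    (hb : (l * |b1|) ^ 2 = 3 / 4 - N ^ 2) (hC : n ^ 2 + b1 ^ 2 ≤ 1 - l ^ 2 / 4) : l = 1 := by
  have q1 : l ^ 2 * (n ^ 2 + b1 ^ 2) = 3 / 4 := by
    have e : l ^ 2 * (n ^ 2 + b1 ^ 2) = (l * n) ^ 2 + (l * |b1|) ^ 2 := by
      rw [← sq_abs b1]
      ring
    rw [e, hn, hb]
    ring
  have q4 : 3 / 4 ≤ l ^ 2 * (1 - l ^ 2 / 4) := by
    rw [← q1]
    exact mul_le_mul_of_nonneg_left hC (sq_nonneg l)
  have h2 : l ^ 2 ≤ 1 := pow_le_one₀ h0 h1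
  by_contra hne
  have h3 : l < 1 := lt_of_le_of_ne h1 hne
  have h4 : l ^ 2 < 1 := pow_lt_one₀ h0 h3 two_ne_zero
  have h5 : 0 < (1 - l ^ 2) * (3 - l ^ 2) := mul_pos (by linarith) (by linarith)
  nlinarith

/-- the height of a point at planar distance `√3/2` -/
theorem height {x y w z : ℝ} (h : x ^ 2 + y ^ 2 = 3 / 4) (h1 : x ^ 2 + y ^ 2 + (w - z) ^ 2 ≤ 1)
    (h2 : x ^ 2 + y ^ 2 + (w - z - 1) ^ 2 ≤ 1) : w = z + 1 / 2 := by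
  have e : (w - z - 1 / 2) ^ 2 = ((w - z) ^ 2 + (w - z - 1) ^ 2) / 2 - 1 / 4 := by ring
  have q : (w - z - 1 / 2) ^ 2 ≤ 0 := by
    rw [e]
    linarith
  have q1 : w - z - 1 / 2 = 0 := pow_eq_zero_iff (two_ne_zero) |>.1 (le_antisymm q (sq_nonneg _))
  linarith

theorem sum_zero {a0 d0 s1 n g0 : ℝ} (hs : s1 ^ 2 = 4 - (1 + 2 * n) ^ 2) (hg : |g0| = 1)
    (h : (a0 + d0 - 2 * 0) ^ 2 + s1 ^ 2 + (|g0| + 2 * n) ^ 2 + 0 ^ 2 ≤ 4) : a0 + d0 = 0 := by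
  rw [hg, hs] at h
  have q : (a0 + d0) ^ 2 ≤ 0 := by
    have e : (a0 + d0 - 2 * 0) ^ 2 = (a0 + d0) ^ 2 := by ring
    rw [e] at h
    linarith
  exact pow_eq_zero_iff (two_ne_zero) |>.1 (le_antisymm q (sq_nonneg _))

/-- the product of the signs -/
theorem sign_prod {n M S b s g : ℝ} (hn : 0 < n) (hM0 : 0 ≤ M) (hS0 : 0 ≤ S) (hb : b ^ 2 = M ^ 2)
    (hs : s ^ 2 = S ^ 2) (hg : g ^ 2 = 1) (hf : M + n * S ≤ |-(b * g) + n * s|) :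
    M * S ≤ -(b * g) * s := by
  have q0 : 0 ≤ M + n * S := add_nonneg hM0 (mul_nonneg hn.le hS0)
  have q1 : (M + n * S) ^ 2 ≤ (-(b * g) + n * s) ^ 2 := by
    rw [← sq_abs (-(b * g) + n * s)]
    exact pow_le_pow_left₀ q0 hf 2
  have e : (-(b * g) + n * s) ^ 2 = b ^ 2 * g ^ 2 + n ^ 2 * s ^ 2 + 2 * n * (-(b * g) * s) := by
    ring
  have e2 : (M + n * S) ^ 2 = M ^ 2 * 1 + n ^ 2 * S ^ 2 + 2 * n * (M * S) := by ring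
  rw [e, e2, hb, hs, hg] at q1
  have q2 : 2 * n * (M * S) ≤ 2 * n * (-(b * g) * s) := by linarith
  exact le_of_mul_le_mul_left q2 (by linarith)

theorem endgame {n M S a0 a1 b1 d0 : ℝ} (hn : 0 < n) (hn' : n < 1 / 2) (hM0 : 0 ≤ M) (hS0 : 0 ≤ S)
    (hM : M ^ 2 = 3 / 4 - n ^ 2) (hS : S ^ 2 = 4 - (1 + 2 * n) ^ 2) (hb : b1 ^ 2 = M ^ 2)
    (hs : (2 * (a1 - b1)) ^ 2 = S ^ 2) (hs0 : a0 + d0 = 0) (hg : (d0 - a0) ^ 2 = 1)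
    (hA : a0 ^ 2 + a1 ^ 2 ≤ 3 / 4)
    (hf : M + n * S ≤ |-(b1 * (d0 - a0)) + n * (2 * (a1 - b1))|) :
    a0 = -(1 / 2) ∧ d0 = 1 / 2 ∧
      ((b1 = M ∧ a1 = M - S / 2) ∨ (b1 = -M ∧ a1 = -(M - S / 2))) := by
  have hp := sign_prod hn hM0 hS0 hb hs hg hf
  have hn2 : n ^ 2 < 1 / 4 := by nlinarith
  have hMpos : 0 < M := by
    rcases hM0.lt_or_eq with h | h
    · exact h
    · rw [← h] at hM
      linarith
  have hSpos : 0 < S := by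
    rcases hS0.lt_or_eq with h | h
    · exact h
    · rw [← h] at hS
      nlinarith
  have hMS : 0 < M * S := mul_pos hMpos hSpos
  have hd : d0 = -a0 := by linarith
  have ha2 : a0 ^ 2 = 1 / 4 := by
    rw [hd] at hg
    have e : (-a0 - a0) ^ 2 = 4 * a0 ^ 2 := by ring
    rw [e] at hg
    linarith
  have ha1 : a1 ^ 2 ≤ 1 / 2 := by linarith
  have hbc : b1 = M ∨ b1 = -M := sq_eq_sq_iff_eq_or_eq_neg.1 hb
  have hsc : 2 * (a1 - b1) = S ∨ 2 * (a1 - b1) = -S := sq_eq_sq_iff_eq_or_eq_neg.1 hs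
  have hgc : d0 - a0 = 1 ∨ d0 - a0 = -1 := by
    have e : (d0 - a0) ^ 2 = 1 ^ 2 := by rw [hg, one_pow]
    exact sq_eq_sq_iff_eq_or_eq_neg.1 e
  rcases hgc with hg1 | hg1
  · refine ⟨by linarith, by linarith, ?_⟩
    rw [hg1] at hp
    rcases hbc with h1 | h1
    · rcases hsc with h2 | h2
      · rw [h1] at h2 hp
        rw [h2] at hp
        exfalso
        linarith
      · exact Or.inl ⟨h1, by linarith⟩
    · rcases hsc with h2 | h2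
      · exact Or.inr ⟨h1, by linarith⟩
      · rw [h1] at h2 hp
        rw [h2] at hp
        exfalso
        linarith
  · exfalso
    rw [hg1] at hp
    rcases hbc with h1 | h1
    · rcases hsc with h2 | h2
      · have e : a1 = M + S / 2 := by linarith
        rw [e] at ha1
        nlinarith
      · rw [h1] at h2 hp
        rw [h2] at hp
        linarith
    · rcases hsc with h2 | h2
      · rw [h1] at h2 hp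
        rw [h2] at hp
        linarith
      · have e : a1 = -(M + S / 2) := by linarith
        rw [e] at ha1
        nlinarith

theorem hh_eq {N : ℝ} (h0 : 0 ≤ N) (h1 : N ≤ 1 / 2) :
    hh N = √(3 / 4 - N ^ 2) - √(4 - (1 + 2 * N) ^ 2) / 2 := by
  have h2 : √(1 - (1 / 2 + N) ^ 2) = √(4 - (1 + 2 * N) ^ 2) / 2 := by
    have e : 1 - (1 / 2 + N) ^ 2 = (4 - (1 + 2 * N) ^ 2) / 2 ^ 2 := by ring
    have hS : 0 ≤ 4 - (1 + 2 * N) ^ 2 := by nlinarith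
    rw [e, Real.sqrt_div hS, Real.sqrt_sq (by norm_num)]
  rw [← h2]
  rfl

/-- the statement with the midpoint and the half length of the middle edge -/
theorem core (h : G_JE) {N : ℝ} (hN : N ∈ Icc (0 : ℝ) (1 / 2))
    (hmax : ∀ M ∈ Icc (0 : ℝ) (1 / 2), f M ≤ f N) (hNpos : 0 < N) (hNlt : N < 1 / 2)
    {z l a0 a1 a2 m n b1 b2 c2 d0 d1 : ℝ} (hl0 : 0 ≤ l) (hl1 : l ≤ 1) (hn0 : 0 ≤ n)
    (hn1 : n ≤ 1 / 2)
    (ha1 : a0 ^ 2 + a1 ^ 2 + (a2 - z) ^ 2 ≤ 1) (ha2 : a0 ^ 2 + a1 ^ 2 + (a2 - z - l) ^ 2 ≤ 1)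
    (hb1 : (m - n) ^ 2 + b1 ^ 2 + (b2 - z) ^ 2 ≤ 1)
    (hb2 : (m - n) ^ 2 + b1 ^ 2 + (b2 - z - l) ^ 2 ≤ 1)
    (hc1 : (m + n) ^ 2 + b1 ^ 2 + (c2 - z) ^ 2 ≤ 1)
    (hc2 : (m + n) ^ 2 + b1 ^ 2 + (c2 - z - l) ^ 2 ≤ 1)
    (hab : (a0 - (m - n)) ^ 2 + (a1 - b1) ^ 2 ≤ 1) (hac : (a0 - (m + n)) ^ 2 + (a1 - b1) ^ 2 ≤ 1)
    (had : (a0 - d0) ^ 2 + (a1 - d1) ^ 2 ≤ 1)
    (hbd : (m - n - d0) ^ 2 + (b1 - d1) ^ 2 ≤ 1) (hcd : (m + n - d0) ^ 2 + (b1 - d1) ^ 2 ≤ 1)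
    (hf : f N ≤ |l * m * (d1 - a1) - l * b1 * (d0 - a0) + l * n * (a1 + d1 - 2 * b1)|) :
    l = 1 ∧ m = 0 ∧ n = N ∧ b2 = z + 1 / 2 ∧ c2 = z + 1 / 2 ∧ a0 = -(1 / 2) ∧ d0 = 1 / 2 ∧
      ((b1 = √(3 / 4 - N ^ 2) ∧ a1 = hh N ∧ d1 = hh N) ∨
        (b1 = -√(3 / 4 - N ^ 2) ∧ a1 = -hh N ∧ d1 = -hh N)) := by
  have hA := planar ha1 ha2
  have hC := planar hc1 hc2
  have hO := outer (planar hb1 hb2) hC
  have p3 := pair3 hac hbd hab hcd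
  clear ha1 ha2 hab hac hbd hcd
  have hln : l * n ≤ n := mul_le_of_le_one_left hn0 hl1
  have hln0 : 0 ≤ l * n := mul_nonneg hl0 hn0
  have c2' : |d0 - a0| ^ 2 + |d1 - a1| ^ 2 ≤ 1 := by
    rw [sq_abs, sq_abs]
    have e : (d0 - a0) ^ 2 + (d1 - a1) ^ 2 = (a0 - d0) ^ 2 + (a1 - d1) ^ 2 := by ring
    rw [e]
    exact had
  have c3' := third hl0 hl1 hn0 p3
  have c4' : f N ≤ l * |m| * |d1 - a1| + l * |b1| * |d0 - a0| + l * n * |a1 + d1 - 2 * b1| :=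
    hf.trans (abs_bound l m n b1 _ _ _ hl0 hn0)
  obtain ⟨r1, r2, r3, r4, r5, r6⟩ := h N hN hmax (l * n) (l * |m|) (l * |b1|) |d0 - a0| |d1 - a1|
    |a1 + d1 - 2 * b1| hln0 (by linarith) (mul_nonneg hl0 (abs_nonneg _))
    (mul_nonneg hl0 (abs_nonneg _)) (abs_nonneg _) (abs_nonneg _) (abs_nonneg _)
    (outer2 hl0 hl1 hO) c2' c3' c4'
  clear c2' c3' c4' hmax h hO
  have hN2 : N ^ 2 < 1 / 4 := by nlinarith
  have hM2 : √(3 / 4 - N ^ 2) ^ 2 = 3 / 4 - N ^ 2 := Real.sq_sqrt (by linarith)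
  have hS2 : √(4 - (1 + 2 * N) ^ 2) ^ 2 = 4 - (1 + 2 * N) ^ 2 := Real.sq_sqrt (by nlinarith)
  have hlp : 0 < l := by
    rcases hl0.lt_or_eq with h1 | h1
    · exact h1
    · rw [← h1, zero_mul] at r1
      linarith
  have hm0 : m = 0 := abs_eq_zero.1 ((mul_eq_zero.1 r2).resolve_left hlp.ne')
  rw [hm0] at hb1 hb2 hc1 hc2 hf hC p3
  clear had hln hln0
  have hC' : n ^ 2 + b1 ^ 2 ≤ 1 - l ^ 2 / 4 := by
    rw [zero_add] at hC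
    exact hC
  have hl : l = 1 := by
    refine l_one hl0 hl1 r1 ?_ hC'
    rw [r3, hM2]
  subst hl
  rw [one_mul] at r1 r3
  have hg1 : d1 - a1 = 0 := abs_eq_zero.1 r5
  have hd1 : d1 = a1 := by linarith
  rw [r1] at hb1 hb2 hc1 hc2 hf p3
  have hb : b1 ^ 2 = √(3 / 4 - N ^ 2) ^ 2 := by rw [← sq_abs b1, r3]
  have es : a1 + d1 - 2 * b1 = 2 * (a1 - b1) := by
    rw [hd1]
    ring
  have hs : (2 * (a1 - b1)) ^ 2 = √(4 - (1 + 2 * N) ^ 2) ^ 2 := by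
    rw [← es, ← sq_abs, r6]
  have hs0 : a0 + d0 = 0 := by
    rw [hg1] at p3
    refine sum_zero (s1 := a1 + d1 - 2 * b1) (n := N) ?_ r4 p3
    rw [es, hs, hS2]
  have hg0 : (d0 - a0) ^ 2 = 1 := by
    rw [← sq_abs, r4, one_pow]
  have hA' : a0 ^ 2 + a1 ^ 2 ≤ 3 / 4 := by linarith
  have hf' : √(3 / 4 - N ^ 2) + N * √(4 - (1 + 2 * N) ^ 2) ≤
      |-(b1 * (d0 - a0)) + N * (2 * (a1 - b1))| := by
    rw [hg1, es] at hf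
    have e : 1 * 0 * 0 - 1 * b1 * (d0 - a0) + 1 * N * (2 * (a1 - b1)) =
        -(b1 * (d0 - a0)) + N * (2 * (a1 - b1)) := by ring
    rw [e] at hf
    exact hf
  obtain ⟨t1, t2, t3⟩ := endgame hNpos hNlt (Real.sqrt_nonneg _) (Real.sqrt_nonneg _) hM2 hS2 hb hs
    hs0 hg0 hA' hf'
  have hb34 : N ^ 2 + b1 ^ 2 = 3 / 4 := by
    rw [hb, hM2]
    ring
  refine ⟨rfl, hm0, r1, ?_, ?_, t1, t2, ?_⟩
  · refine height (x := 0 - N) (y := b1) ?_ hb1 hb2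
    rw [zero_sub, neg_sq]
    exact hb34
  · refine height (x := 0 + N) (y := b1) ?_ hc1 hc2
    rw [zero_add]
    exact hb34
  · rw [hh_eq hN.1 hN.2, hd1]
    rcases t3 with ⟨u1, u2⟩ | ⟨u1, u2⟩
    · exact Or.inl ⟨u1, u2, u2⟩
    · exact Or.inr ⟨u1, u2, u2⟩

theorem thm (h : G_JE) (hu : G_UNI) : G_PA0E := by
  intro N hN hmax z l a0 a1 a2 b0 b1 b2 c0 c1 c2 d0 d1 d2 hl0 hl1 hcb hbc ha1 ha2 hb1 hb2 hc1 hc2
    hd1 hd2 hab hac had hbc' hbd hcd hf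
  obtain ⟨-, -, hNl, hNu⟩ := hu N hN hmax
  subst hcb
  obtain ⟨n, hn⟩ : ∃ n, n = (c0 - b0) / 2 := ⟨_, rfl⟩
  obtain ⟨m, hm⟩ : ∃ m, m = (b0 + c0) / 2 := ⟨_, rfl⟩
  have eb : b0 = m - n := by rw [hn, hm]; ring
  have ec : c0 = m + n := by rw [hn, hm]; ring
  have hn0 : 0 ≤ n := by rw [hn]; linarith
  have hn1 : n ≤ 1 / 2 := by
    have h1 : (c0 - b0) ^ 2 ≤ 1 ^ 2 := by
      have e : (b0 - c0) ^ 2 + (c1 - c1) ^ 2 = (c0 - b0) ^ 2 := by ring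
      rw [e] at hbc'
      rw [one_pow]
      exact hbc'
    have h2 : c0 - b0 ≤ 1 := (pow_le_pow_iff_left₀ (by linarith) zero_le_one two_ne_zero).1 h1
    rw [hn]
    linarith
  clear hn hm hbc' hbc hd1 hd2
  subst eb
  subst ec
  rw [value] at hf
  obtain ⟨t1, t2, t3, t4, t5, t6, t7, t8⟩ := core h hN hmax (by linarith) (by linarith) hl0 hl1 hn0
    hn1 ha1 ha2 hb1 hb2 hc1 hc2 hab hac had hbd hcd hf
  refine ⟨t1, ?_, ?_, t4, t5, t6, t7, t8⟩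
  · rw [t2, t3, zero_sub]
  · rw [t2, t3, zero_add]

end Pool.Agent.Helper95.Vol.PkPA0E
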