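import Pool.Agent.Helper89.Vol.Goals

/-! # MP_cd13d2_co : the exact value of `V(3,6)`, packet V36-LD (the distances) -/

set_option autoImplicit false

namespace Pool.Agent.Helper95.Vol.PkLD

open Set Pool.Agent.Helper86.Poly Pool.Agent.Helper89.Vol

theorem dist_le {p q : E 3} (h : (p 0 - q 0) ^ 2 + (p 1 - q 1) ^ 2 + (p 2 - q 2) ^ 2 ≤ 1) :
    dist p q ≤ 1 := by
  rw [EuclideanSpace.dist_eq, Fin.sum_univ_three, Real.sqrt_le_one]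
  simp only [Real.dist_eq, sq_abs]
  exact h

theorem thm : Pool.Agent.Helper89.Vol.G_LD := by
  intro N hN i j
  obtain ⟨h0, h1⟩ := hN
  have hM2 : √(3 / 4 - N ^ 2) ^ 2 = 3 / 4 - N ^ 2 := Real.sq_sqrt (by nlinarith)
  have hr2 : √(1 - (1 / 2 + N) ^ 2) ^ 2 = 1 - (1 / 2 + N) ^ 2 := Real.sq_sqrt (by nlinarith)
  have hM0 : 0 ≤ √(3 / 4 - N ^ 2) := Real.sqrt_nonneg _
  have hr0 : 0 ≤ √(1 - (1 / 2 + N) ^ 2) := Real.sqrt_nonneg _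
  obtain ⟨M, hM⟩ : ∃ M, M = √(3 / 4 - N ^ 2) := ⟨_, rfl⟩
  obtain ⟨r, hr⟩ : ∃ r, r = √(1 - (1 / 2 + N) ^ 2) := ⟨_, rfl⟩
  have hQ : Q N = ![!₂[0, 0, 0], !₂[0, 0, 1], !₂[-(1 / 2), M - r, 1 / 2], !₂[-N, M, 1 / 2],
      !₂[N, M, 1 / 2], !₂[1 / 2, M - r, 1 / 2]] := by
    rw [hM, hr]
    rfl
  rw [← hM] at hM2 hM0
  rw [← hr] at hr2 hr0
  rw [hQ]
  clear hQ hM hr
  have hrM : r ≤ M := by
    by_contra hc
    push Not at hc
    nlinarith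
  have hN2 : N ^ 2 ≤ 1 / 4 := by nlinarith
  have hh0 : 0 ≤ M - r := sub_nonneg.2 hrM
  have hhM : (M - r) * M ≤ N := by nlinarith [mul_nonneg hh0 hr0]
  have hhM0 : 0 ≤ (M - r) * M := mul_nonneg hh0 hM0
  have hhM2 : ((M - r) * M) ^ 2 ≤ 1 / 4 := by nlinarith
  have hh2 : (M - r) ^ 2 ≤ 1 / 2 := by nlinarith [sq_nonneg (M - r)]
  fin_cases i <;> fin_cases j <;> refine dist_le ?_ <;> simp <;>
    first
    | (rw [abs_le]; constructor <;> linarith)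
    | nlinarith

end Pool.Agent.Helper95.Vol.PkLD
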